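import Mathlib

set_option autoImplicit false

/-! # Planar conformal harmonic discs in a square -/

open Complex Metric Set Filter Topology

namespace Pool.Agent.T2H74.Disc

/-- a holomorphic disc in the open square has derivative at most `√(5/4)` at its centre -/
theorem square_bound {F : ℂ → ℂ} {s : ℝ} (hF : DifferentiableOn ℂ F (ball 0 1))
    (h0 : F 0 = 0) (h1 : deriv F 0 = s)
    (hre : ∀ z ∈ ball (0 : ℂ) 1, |(F z).re| < 1) (him : ∀ z ∈ ball (0 : ℂ) 1, |(F z).im| < 1) :
    s ^ 2 ≤ 5 / 4 := by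
  -- bound for every radius
  have key : ∀ ρ : ℝ, 0 < ρ → ρ < 1 → s ^ 2 * ρ ^ 2 ≤ 5 / 4 := by
    intro ρ hρ hρ1
    have hcl : closedBall (0 : ℂ) ρ ⊆ ball 0 1 := closedBall_subset_ball hρ1
    set k : ℂ → ℂ := fun z => 2 * s * ρ ^ 2 * dslope F 0 z + F z ^ 4 / 4 with hk
    have hds : DifferentiableOn ℂ (dslope F 0) (ball 0 1) :=
      (differentiableOn_dslope (isOpen_ball.mem_nhds (mem_ball_self one_pos))).2 hF
    have hkd : DifferentiableOn ℂ k (ball 0 1) := by
      apply DifferentiableOn.add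
      · exact hds.const_mul _
      · exact (hF.pow 4).div_const _
    have hkc : DiffContOnCl ℂ (fun z => exp (k z)) (ball 0 ρ) := by
      apply DifferentiableOn.diffContOnCl
      apply DifferentiableOn.cexp
      apply hkd.mono
      exact closure_ball_subset_closedBall.trans hcl
    have hfr : ∀ z ∈ frontier (ball (0 : ℂ) ρ), ‖exp (k z)‖ ≤ Real.exp (5 / 4 + s ^ 2 * ρ ^ 2) := by
      intro z hz
      rw [frontier_ball _ hρ.ne', mem_sphere_zero_iff_norm] at hz
      have hz1 : z ∈ ball (0 : ℂ) 1 := by rw [mem_ball_zero_iff, hz]; exact hρ1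
      rw [Complex.norm_exp]
      apply Real.exp_le_exp.2
      have hzne : z ≠ 0 := by
        intro h
        rw [h, norm_zero] at hz
        exact hρ.ne hz
      have e1 : dslope F 0 z = F z / z := by
        rw [dslope_of_ne _ hzne, slope_def_field, h0, sub_zero, sub_zero]
      have e2 : (ρ : ℂ) ^ 2 * (F z / z) = F z * (starRingEnd ℂ z) := by
        have : (ρ : ℂ) ^ 2 = z * (starRingEnd ℂ z) := by
          rw [Complex.mul_conj, Complex.normSq_eq_norm_sq, hz]; push_cast; ring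
        rw [this]
        field_simp
      have e3 : k z = 2 * s * (F z * (starRingEnd ℂ z)) + F z ^ 4 / 4 := by
        rw [hk]
        simp only
        rw [e1, mul_assoc (2 * (s : ℂ)), e2]
      rw [e3]
      have hu := abs_lt.1 (hre z hz1)
      have hv := abs_lt.1 (him z hz1)
      obtain ⟨u, hu'⟩ : ∃ u, u = (F z).re := ⟨_, rfl⟩
      obtain ⟨v, hv'⟩ : ∃ v, v = (F z).im := ⟨_, rfl⟩
      have hFz : F z = ⟨u, v⟩ := by rw [hu', hv']
      rw [← hu'] at hu
      rw [← hv'] at hv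
      have hzz : z.re ^ 2 + z.im ^ 2 = ρ ^ 2 := by
        rw [← hz, ← Complex.normSq_eq_norm_sq, Complex.normSq_apply]; ring
      have e4 : (2 * s * (F z * (starRingEnd ℂ z)) + F z ^ 4 / 4).re =
          2 * s * (u * z.re + v * z.im) + (u ^ 4 - 6 * u ^ 2 * v ^ 2 + v ^ 4) / 4 := by
        rw [hFz]
        have : ((⟨u, v⟩ : ℂ) ^ 4 / 4).re = (u ^ 4 - 6 * u ^ 2 * v ^ 2 + v ^ 4) / 4 := by
          have h4 : (4 : ℂ) = ((4 : ℝ) : ℂ) := by norm_num
          rw [h4, Complex.div_ofReal_re]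
          congr 1
          simp [pow_succ, Complex.mul_re, Complex.mul_im]
          ring
        rw [Complex.add_re, this]
        simp [Complex.mul_re, Complex.mul_im]
      rw [e4]
      have hu2 : 0 ≤ 1 - u ^ 2 := by nlinarith
      have hv2 : 0 ≤ 1 - v ^ 2 := by nlinarith
      have hq : u ^ 2 + v ^ 2 + (u ^ 4 - 6 * u ^ 2 * v ^ 2 + v ^ 4) / 4 ≤ 5 / 4 := by
        nlinarith [mul_nonneg hu2 hv2, mul_nonneg hu2 hu2, mul_nonneg hv2 hv2, sq_nonneg (u ^ 2 - v ^ 2),
          sq_nonneg u, sq_nonneg v]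
      nlinarith [sq_nonneg (u - s * z.re), sq_nonneg (v - s * z.im)]
    have h2 := Complex.norm_le_of_forall_mem_frontier_norm_le isBounded_ball hkc hfr
      (z := 0) (subset_closure (mem_ball_self hρ))
    rw [Complex.norm_exp] at h2
    have h3 := Real.exp_le_exp.1 h2
    have h4 : (k 0).re = 2 * s * ρ ^ 2 * s := by
      rw [hk]
      simp only
      rw [h0, dslope_same, h1]
      have : (2 * (s : ℂ) * (ρ : ℂ) ^ 2 * s + 0 ^ 4 / 4) = ((2 * s * ρ ^ 2 * s : ℝ) : ℂ) := by
        push_cast; ring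
      rw [this, Complex.ofReal_re]
    rw [h4] at h3
    nlinarith
  by_contra hcon
  push Not at hcon
  obtain ⟨q, hq⟩ : ∃ q, q = s ^ 2 := ⟨_, rfl⟩
  rw [← hq] at hcon
  have hq0 : 0 < q := by linarith
  have h5 : 5 / 4 / q < 1 := by rw [div_lt_one hq0]; exact hcon
  obtain ⟨t, ht1, ht2⟩ := exists_between h5
  have ht0 : 0 < t := lt_trans (by positivity) ht1
  have h6 := key (Real.sqrt t) (Real.sqrt_pos.2 ht0) (by
    rw [Real.sqrt_lt' one_pos]; simpa using ht2)
  rw [Real.sq_sqrt ht0.le, ← hq] at h6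
  rw [div_lt_iff₀ hq0] at ht1
  linarith

end Pool.Agent.T2H74.Disc
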