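import Mathlib
import Pool.Agent.T2H74.DiscA

set_option autoImplicit false

/-! # Conformal harmonic discs -/

open Complex Metric Set Filter Topology InnerProductSpace

namespace Pool.Agent.T2H74.Disc

/-- conformal harmonic discs in `Ω` -/
def IsCH {n : ℕ} (Ω : Set (EuclideanSpace ℝ (Fin n))) (f : ℂ → EuclideanSpace ℝ (Fin n)) : Prop :=
  ContDiffOn ℝ 2 f (ball (0 : ℂ) 1) ∧
    (∀ z ∈ ball (0 : ℂ) 1, f z ∈ Ω) ∧
    (∀ z ∈ ball (0 : ℂ) 1,
      ‖fderiv ℝ f z (1 : ℂ)‖ = ‖fderiv ℝ f z Complex.I‖ ∧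
      inner ℝ (fderiv ℝ f z (1 : ℂ)) (fderiv ℝ f z Complex.I) = 0) ∧
    (∀ z ∈ ball (0 : ℂ) 1,
      fderiv ℝ (fun w => fderiv ℝ f w (1 : ℂ)) z (1 : ℂ) +
        fderiv ℝ (fun w => fderiv ℝ f w Complex.I) z Complex.I = 0)

section coord

variable {n : ℕ}

lemma hasFDerivAt_coord {f : ℂ → EuclideanSpace ℝ (Fin n)} {z : ℂ} (hf : DifferentiableAt ℝ f z)
    (j : Fin n) : HasFDerivAt (fun w => f w j) ((EuclideanSpace.proj j : _ →L[ℝ] ℝ).comp
      (fderiv ℝ f z)) z :=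
  ((EuclideanSpace.proj j : EuclideanSpace ℝ (Fin n) →L[ℝ] ℝ).hasFDerivAt).comp z hf.hasFDerivAt

lemma fderiv_coord {f : ℂ → EuclideanSpace ℝ (Fin n)} {z : ℂ} (hf : DifferentiableAt ℝ f z)
    (j : Fin n) (v : ℂ) : fderiv ℝ (fun w => f w j) z v = (fderiv ℝ f z v) j := by
  rw [(hasFDerivAt_coord hf j).fderiv]
  rfl

lemma contDiffAt_of_mem {E : Type*} [NormedAddCommGroup E] [NormedSpace ℝ E] {f : ℂ → E} {z : ℂ}
    (hf : ContDiffOn ℝ 2 f (ball 0 1)) (hz : z ∈ ball (0 : ℂ) 1) : ContDiffAt ℝ 2 f z :=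
  hf.contDiffAt (isOpen_ball.mem_nhds hz)

/-- coordinates of harmonic maps are harmonic -/
lemma harmonic_coord {f : ℂ → EuclideanSpace ℝ (Fin n)} (hf : ContDiffOn ℝ 2 f (ball 0 1))
    (hh : ∀ z ∈ ball (0 : ℂ) 1,
      fderiv ℝ (fun w => fderiv ℝ f w (1 : ℂ)) z (1 : ℂ) +
        fderiv ℝ (fun w => fderiv ℝ f w Complex.I) z Complex.I = 0) (j : Fin n)
    {z : ℂ} (hz : z ∈ ball (0 : ℂ) 1) : HarmonicAt (fun w => f w j) z := by
  have hc : ∀ w ∈ ball (0 : ℂ) 1, ContDiffAt ℝ 2 (fun w => f w j) w := by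
    intro w hw
    exact contDiffAt_euclidean.1 (contDiffAt_of_mem hf hw) j
  refine ⟨hc z hz, ?_⟩
  filter_upwards [isOpen_ball.mem_nhds hz] with w hw
  rw [laplacian_eq_iteratedFDeriv_complexPlane]
  simp only [iteratedFDeriv_two_apply, Matrix.cons_val_zero, Matrix.cons_val_one, Pi.zero_apply]
  have hd : ∀ x ∈ ball (0 : ℂ) 1, DifferentiableAt ℝ f x := fun x hx =>
    (contDiffAt_of_mem hf hx).differentiableAt (by norm_num)
  have hd2 : DifferentiableAt ℝ (fderiv ℝ f) w :=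
    ((contDiffAt_of_mem hf hw).fderiv_right (m := 1) (by norm_num)).differentiableAt (by norm_num)
  have hd3 : DifferentiableAt ℝ (fderiv ℝ (fun w => f w j)) w :=
    ((hc w hw).fderiv_right (m := 1) (by norm_num)).differentiableAt (by norm_num)
  have key : ∀ v : ℂ, fderiv ℝ (fderiv ℝ (fun w => f w j)) w v v =
      (fderiv ℝ (fun w => fderiv ℝ f w v) w v) j := by
    intro v
    have e1 : fderiv ℝ (fderiv ℝ (fun w => f w j)) w v v =
        fderiv ℝ (fun x => fderiv ℝ (fun w => f w j) x v) w v := by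
      rw [fderiv_clm_apply hd3 (differentiableAt_const v)]
      simp
    rw [e1]
    have e2 : (fun x => fderiv ℝ (fun w => f w j) x v) =ᶠ[𝓝 w] fun x => (fderiv ℝ f x v) j := by
      filter_upwards [isOpen_ball.mem_nhds hw] with x hx
      exact fderiv_coord (hd x hx) j v
    rw [e2.fderiv_eq]
    exact fderiv_coord (f := fun x => fderiv ℝ f x v)
      (hd2.clm_apply (differentiableAt_const v)) j v
  have h1 := hh w hw
  have h2 := congrArg (fun x : EuclideanSpace ℝ (Fin n) => x j) h1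
  simp only [PiLp.add_apply, PiLp.zero_apply] at h2
  rw [key 1, key I]
  exact h2

end coord

section planar

variable {m : ℕ}

lemma sum_two {g : Fin (m + 3) → ℝ} (hg : ∀ j, j ≠ 0 → j ≠ 1 → g j = 0) :
    ∑ j, g j = g 0 + g 1 := by
  rw [Fintype.sum_eq_add (0 : Fin (m + 3)) 1 (by simp [Fin.ext_iff])]
  rintro x ⟨h1, h2⟩
  exact hg x h1 h2

/-- a conformal harmonic disc in a plane is holomorphic -/
theorem planar_bound {Ω : Set (EuclideanSpace ℝ (Fin (m + 3)))}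
    {f : ℂ → EuclideanSpace ℝ (Fin (m + 3))} (hf : IsCH Ω f)
    (hΩ : ∀ x ∈ Ω, |x 0| < 1 ∧ |x 1| < 1)
    (hpl : ∀ z ∈ ball (0 : ℂ) 1, ∀ j, j ≠ 0 → j ≠ 1 → f z j = 0) (h0 : f 0 = 0) {s : ℝ}
    (hs : 0 < s) (h1 : fderiv ℝ f 0 1 = s • EuclideanSpace.single 0 1)
    (h2 : fderiv ℝ f 0 I = s • EuclideanSpace.single 1 1) : s ^ 2 ≤ 5 / 4 := by
  obtain ⟨hc, hmem, hconf, hharm⟩ := hf
  have hd : ∀ x ∈ ball (0 : ℂ) 1, DifferentiableAt ℝ f x := fun x hx =>
    (contDiffAt_of_mem hc hx).differentiableAt (by norm_num)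
  -- the analytic functions
  set φ : Fin (m + 3) → ℂ → ℂ := fun j z =>
    fderiv ℝ (fun w => f w j) z 1 - I * fderiv ℝ (fun w => f w j) z I with hφ
  have hφa : ∀ j, AnalyticOnNhd ℂ (φ j) (ball 0 1) := fun j z hz =>
    HarmonicAt.analyticAt_complex_partial (harmonic_coord hc hharm j hz)
  have hφv : ∀ j, ∀ z ∈ ball (0 : ℂ) 1, φ j z =
      ((fderiv ℝ f z 1 j : ℝ) : ℂ) - I * ((fderiv ℝ f z I j : ℝ) : ℂ) := by
    intro j z hz
    simp only [hφ]
    rw [fderiv_coord (hd z hz), fderiv_coord (hd z hz)]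
  -- derivatives of the vanishing coordinates vanish
  have hz0 : ∀ z ∈ ball (0 : ℂ) 1, ∀ j, j ≠ 0 → j ≠ 1 → ∀ v, fderiv ℝ f z v j = 0 := by
    intro z hz j hj0 hj1 v
    rw [← fderiv_coord (hd z hz)]
    have : (fun w => f w j) =ᶠ[𝓝 z] fun _ => (0 : ℝ) := by
      filter_upwards [isOpen_ball.mem_nhds hz] with w hw
      exact hpl w hw j hj0 hj1
    rw [this.fderiv_eq]
    simp
  have hconf2 : ∀ z ∈ ball (0 : ℂ) 1,
      (fderiv ℝ f z 1 0) ^ 2 + (fderiv ℝ f z 1 1) ^ 2 =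
        (fderiv ℝ f z I 0) ^ 2 + (fderiv ℝ f z I 1) ^ 2 ∧
      fderiv ℝ f z 1 0 * fderiv ℝ f z I 0 + fderiv ℝ f z 1 1 * fderiv ℝ f z I 1 = 0 := by
    intro z hz
    obtain ⟨c1, c2⟩ := hconf z hz
    constructor
    · have c3 : ‖fderiv ℝ f z 1‖ ^ 2 = ‖fderiv ℝ f z I‖ ^ 2 := by rw [c1]
      rw [EuclideanSpace.real_norm_sq_eq, EuclideanSpace.real_norm_sq_eq,
        sum_two (fun j h h' => by rw [hz0 z hz j h h']; norm_num),
        sum_two (fun j h h' => by rw [hz0 z hz j h h']; norm_num)] at c3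
      exact c3
    · rw [PiLp.inner_apply, sum_two (fun j h h' => by rw [hz0 z hz j h h' 1]; simp)] at c2
      simp only [RCLike.inner_apply, conj_trivial] at c2
      linarith
  have hprod : ∀ z ∈ ball (0 : ℂ) 1, ((fun z => φ 0 z + I * φ 1 z) z) *
      ((fun z => φ 0 z - I * φ 1 z) z) = 0 := by
    intro z hz
    obtain ⟨c1, c2⟩ := hconf2 z hz
    simp only
    rw [hφv 0 z hz, hφv 1 z hz]
    have e : ∀ a b c d : ℝ, a ^ 2 + c ^ 2 = b ^ 2 + d ^ 2 → a * b + c * d = 0 →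
        (((a : ℂ) - I * b) + I * ((c : ℂ) - I * d)) * (((a : ℂ) - I * b) - I * ((c : ℂ) - I * d)) =
          0 := by
      intro a b c d e1 e2
      have e1' : (a : ℂ) ^ 2 + c ^ 2 = b ^ 2 + d ^ 2 := by exact_mod_cast e1
      have e2' : (a : ℂ) * b + c * d = 0 := by exact_mod_cast e2
      have hI : I ^ 2 = -1 := Complex.I_sq
      linear_combination e1' - 2 * I * e2' + (b ^ 2 - c ^ 2 + 2 * I * c * d - I ^ 2 * d ^ 2 + d ^ 2) * hI
    exact e _ _ _ _ c1 c2
  have hpre : IsPreconnected (ball (0 : ℂ) 1) := (convex_ball (0 : ℂ) 1).isPreconnected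
  have han1 : AnalyticOnNhd ℂ (fun z => φ 0 z + I * φ 1 z) (ball 0 1) :=
    (hφa 0).add (analyticOnNhd_const.mul (hφa 1))
  have han2 : AnalyticOnNhd ℂ (fun z => φ 0 z - I * φ 1 z) (ball 0 1) :=
    (hφa 0).sub (analyticOnNhd_const.mul (hφa 1))
  have hor := AnalyticOnNhd.eq_zero_or_eq_zero_of_mul_eq_zero han1 han2 hprod hpre
  have m0 : (0 : ℂ) ∈ ball (0 : ℂ) 1 := mem_ball_self one_pos
  have hcr : ∀ z ∈ ball (0 : ℂ) 1, φ 0 z - I * φ 1 z = 0 := by
    rcases hor with h | h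
    · exfalso
      have h3 := h 0 m0
      rw [hφv 0 0 m0, hφv 1 0 m0, h1, h2] at h3
      simp at h3
      have h4 := congrArg Complex.re h3
      simp at h4
      linarith
    · exact h
  -- the holomorphic function
  set F : ℂ → ℂ := fun z => (f z 0 : ℂ) + I * (f z 1 : ℂ) with hFdef
  have hFd : ∀ z ∈ ball (0 : ℂ) 1, DifferentiableAt ℝ F z ∧
      ∀ v, fderiv ℝ F z v = ((fderiv ℝ f z v 0 : ℝ) : ℂ) + I * ((fderiv ℝ f z v 1 : ℝ) : ℂ) := by
    intro z hz
    have hcoord : ∀ j, HasFDerivAt (fun w => f w j) (fderiv ℝ (fun w => f w j) z) z := by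
      intro j
      exact (hasFDerivAt_coord (hd z hz) j).differentiableAt.hasFDerivAt
    have hA : HasFDerivAt F (Complex.ofRealCLM.comp (fderiv ℝ (fun w => f w 0) z) +
        I • Complex.ofRealCLM.comp (fderiv ℝ (fun w => f w 1) z)) z := by
      have a1 := (Complex.ofRealCLM.hasFDerivAt (x := f z 0)).comp z (hcoord 0)
      have a2 := (Complex.ofRealCLM.hasFDerivAt (x := f z 1)).comp z (hcoord 1)
      exact a1.add (a2.const_smul I)
    refine ⟨hA.differentiableAt, ?_⟩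
    intro v
    rw [hA.fderiv]
    simp only [ContinuousLinearMap.add_apply, ContinuousLinearMap.comp_apply,
      ContinuousLinearMap.smul_apply, Complex.ofRealCLM_apply, smul_eq_mul]
    rw [fderiv_coord (hd z hz), fderiv_coord (hd z hz)]
  have hFc : ∀ z ∈ ball (0 : ℂ) 1, DifferentiableAt ℂ F z := by
    intro z hz
    rw [differentiableAt_complex_iff_differentiableAt_real]
    refine ⟨(hFd z hz).1, ?_⟩
    rw [(hFd z hz).2, (hFd z hz).2]
    have h3 := hcr z hz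
    rw [hφv 0 z hz, hφv 1 z hz] at h3
    have h4 := congrArg Complex.re h3
    have h5 := congrArg Complex.im h3
    simp at h4 h5
    rw [smul_eq_mul]
    apply Complex.ext
    · simp
      linarith
    · simp
      linarith
  apply square_bound (F := F) (s := s)
  · intro z hz
    exact (hFc z hz).differentiableWithinAt
  · simp only [hFdef, h0]
    simp
  · have h3 : HasDerivAt F (deriv F 0) 0 := (hFc 0 m0).hasDerivAt
    have h4 : fderiv ℝ F 0 1 = deriv F 0 := by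
      have := h3.hasFDerivAt.restrictScalars ℝ
      rw [this.fderiv]
      simp
    rw [← h4, (hFd 0 m0).2, h1]
    simp [Fin.ext_iff]
  · intro z hz
    have := (hΩ _ (hmem z hz)).1
    simpa [hFdef] using this
  · intro z hz
    have := (hΩ _ (hmem z hz)).2
    simpa [hFdef] using this

end planar

end Pool.Agent.T2H74.Disc
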