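import Mathlib
import Pool.Agent.T2H74.DiscB

set_option autoImplicit false

/-! # Weierstrass data and the Enneper disc -/

open Complex Metric Set Filter Topology InnerProductSpace

namespace Pool.Agent.T2H74.Disc

section W

variable {n : ℕ}

/-- the map with coordinates `Re F_j` -/
noncomputable def reMap (F : Fin n → ℂ → ℂ) (z : ℂ) : EuclideanSpace ℝ (Fin n) :=
  WithLp.toLp 2 fun j => (F j z).re

@[simp] lemma reMap_apply (F : Fin n → ℂ → ℂ) (z : ℂ) (j : Fin n) :
    reMap F z j = (F j z).re := rfl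

lemma hasFDerivAt_reMap {F : Fin n → ℂ → ℂ} (hF : ∀ j, Differentiable ℂ (F j)) (z : ℂ) :
    HasFDerivAt (reMap F) ((PiLp.continuousLinearEquiv 2 ℝ (fun _ : Fin n => ℝ)).symm.toContinuousLinearMap.comp
      (ContinuousLinearMap.pi fun j => Complex.reCLM.comp
        ((ContinuousLinearMap.toSpanSingleton ℂ (deriv (F j) z)).restrictScalars ℝ))) z := by
  have h : ∀ j, HasFDerivAt (fun w => (F j w).re) (Complex.reCLM.comp
        ((ContinuousLinearMap.toSpanSingleton ℂ (deriv (F j) z)).restrictScalars ℝ)) z := by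
    intro j
    have h1 := (hF j z).hasDerivAt.hasFDerivAt.restrictScalars ℝ
    exact Complex.reCLM.hasFDerivAt.comp z h1
  have h3 : HasFDerivAt (fun w => fun j => (F j w).re) (ContinuousLinearMap.pi fun j => Complex.reCLM.comp
        ((ContinuousLinearMap.toSpanSingleton ℂ (deriv (F j) z)).restrictScalars ℝ)) z :=
    hasFDerivAt_pi.2 h
  exact ((PiLp.continuousLinearEquiv 2 ℝ (fun _ : Fin n => ℝ)).symm.toContinuousLinearMap.hasFDerivAt).comp z h3

lemma fderiv_reMap {F : Fin n → ℂ → ℂ} (hF : ∀ j, Differentiable ℂ (F j)) (z v : ℂ) :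
    fderiv ℝ (reMap F) z v = reMap (fun j w => v * deriv (F j) w) z := by
  rw [(hasFDerivAt_reMap hF z).fderiv]
  ext j
  simp [reMap]

lemma contDiff_reMap {F : Fin n → ℂ → ℂ} (hF : ∀ j, Differentiable ℂ (F j)) :
    ContDiff ℝ 2 (reMap F) := by
  rw [contDiff_euclidean]
  intro j
  have h1 : ContDiff ℂ 2 (F j) := (hF j).contDiff
  exact Complex.reCLM.contDiff.comp (h1.restrict_scalars ℝ)

theorem isCH_reMap {F : Fin n → ℂ → ℂ} (hF : ∀ j, Differentiable ℂ (F j))
    (hW : ∀ z, ∑ j, deriv (F j) z ^ 2 = 0) {Ω : Set (EuclideanSpace ℝ (Fin n))}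
    (hΩ : ∀ z ∈ ball (0 : ℂ) 1, reMap F z ∈ Ω) : IsCH Ω (reMap F) := by
  have hF' : ∀ j, Differentiable ℂ (deriv (F j)) := fun j => by
    have h1 : ContDiff ℂ 2 (F j) := (hF j).contDiff
    exact (h1.iterate_deriv' 1 1).differentiable (by norm_num)
  refine ⟨(contDiff_reMap hF).contDiffOn, hΩ, ?_, ?_⟩
  · intro z _
    have h := hW z
    rw [fderiv_reMap hF, fderiv_reMap hF]
    have hre := congrArg Complex.re h
    have him := congrArg Complex.im h
    rw [Complex.re_sum, Complex.zero_re] at hre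
    rw [Complex.im_sum, Complex.zero_im] at him
    have e1 : ∀ j, (deriv (F j) z ^ 2).re = (deriv (F j) z).re ^ 2 - (deriv (F j) z).im ^ 2 := by
      intro j; rw [sq, Complex.mul_re]; ring
    have e2 : ∀ j, (deriv (F j) z ^ 2).im = 2 * ((deriv (F j) z).re * (deriv (F j) z).im) := by
      intro j; rw [sq, Complex.mul_im]; ring
    simp only [e1, e2] at hre him
    rw [Finset.sum_sub_distrib] at hre
    rw [← Finset.mul_sum] at him
    constructor
    · rw [EuclideanSpace.norm_eq, EuclideanSpace.norm_eq]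
      congr 1
      simp only [reMap_apply, one_mul, Complex.mul_re, Complex.I_re, Complex.I_im, zero_mul, zero_sub,
        Real.norm_eq_abs, sq_abs, neg_sq]
      linarith
    · rw [PiLp.inner_apply]
      simp only [reMap_apply, one_mul, Complex.mul_re, Complex.I_re, Complex.I_im, zero_mul, zero_sub,
        RCLike.inner_apply, conj_trivial]
      have : ∀ j, -(deriv (F j) z).im * (deriv (F j) z).re =
          -((deriv (F j) z).re * (deriv (F j) z).im) := fun j => by ring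
      simp only [this]
      rw [Finset.sum_neg_distrib]
      linarith
  · intro z _
    have h1 : ∀ v : ℂ, (fun w => fderiv ℝ (reMap F) w v) = reMap (fun j w => v * deriv (F j) w) := by
      intro v
      funext w
      exact fderiv_reMap hF w v
    have h2 : ∀ v : ℂ, ∀ j, Differentiable ℂ (fun w => v * deriv (F j) w) := fun v j =>
      (hF' j).const_mul v
    rw [h1 1, h1 I, fderiv_reMap (h2 1), fderiv_reMap (h2 I)]
    ext j
    simp only [PiLp.add_apply, reMap_apply, PiLp.zero_apply]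
    rw [deriv_const_mul _ (hF' j z), deriv_const_mul _ (hF' j z), ← mul_assoc I I, Complex.I_mul_I]
    simp

end W

section Enneper

variable {m : ℕ}

/-- the Enneper data -/
noncomputable def enn (r b : ℝ) (j : Fin (m + 3)) (z : ℂ) : ℂ :=
  if j = 0 then r * (z - z ^ 3 / 6) else if j = 1 then -(I * r) * (z + z ^ 3 / 6)
    else if j = 2 then r * b * z ^ 2 else 0

lemma enn0 (r b : ℝ) : (enn r b (0 : Fin (m + 3))) = fun z => (r : ℂ) * (z - z ^ 3 / 6) := by
  funext z; simp [enn]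

lemma enn1 (r b : ℝ) : (enn r b (1 : Fin (m + 3))) = fun z => -(I * (r : ℂ)) * (z + z ^ 3 / 6) := by
  funext z; simp [enn]

lemma val_two' : ((2 : Fin (m + 3)) : ℕ) = 2 := by
  show 2 % (m + 3) = 2
  exact Nat.mod_eq_of_lt (by omega)

lemma two_ne_zero' : (2 : Fin (m + 3)) ≠ 0 := by
  intro h
  have := congrArg Fin.val h
  rw [val_two'] at this
  simp at this

lemma two_ne_one' : (2 : Fin (m + 3)) ≠ 1 := by
  intro h
  have := congrArg Fin.val h
  rw [val_two'] at this
  simp at this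

lemma one_ne_zero' : (1 : Fin (m + 3)) ≠ 0 := by
  intro h
  have := congrArg Fin.val h
  simp at this

lemma enn2 (r b : ℝ) : (enn r b (2 : Fin (m + 3))) = fun z => (r : ℂ) * b * z ^ 2 := by
  funext z
  simp [enn, two_ne_zero', two_ne_one']

lemma enn3 (r b : ℝ) {j : Fin (m + 3)} (h0 : j ≠ 0) (h1 : j ≠ 1) (h2 : j ≠ 2) :
    enn r b j = fun _ => 0 := by
  funext z
  simp [enn, h0, h1, h2]

lemma enn_diff (r b : ℝ) (j : Fin (m + 3)) : Differentiable ℂ (enn r b j) := by
  by_cases h0 : j = 0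
  · rw [h0, enn0]; fun_prop
  by_cases h1 : j = 1
  · rw [h1, enn1]; fun_prop
  by_cases h2 : j = 2
  · rw [h2, enn2]; fun_prop
  · rw [enn3 r b h0 h1 h2]; fun_prop

lemma sum_three {M : Type*} [AddCommMonoid M] {g : Fin (m + 3) → M}
    (hg : ∀ j, j ≠ 0 → j ≠ 1 → j ≠ 2 → g j = 0) : ∑ j, g j = g 0 + g 1 + g 2 := by
  classical
  have h : ∑ j, g j = ∑ j ∈ ({0, 1, 2} : Finset (Fin (m + 3))), g j := by
    symm
    apply Finset.sum_subset (Finset.subset_univ _)
    intro j _ hj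
    simp only [Finset.mem_insert, Finset.mem_singleton, not_or] at hj
    exact hg j hj.1 hj.2.1 hj.2.2
  rw [h, Finset.sum_insert, Finset.sum_insert, Finset.sum_singleton, add_assoc]
  · simp only [Finset.mem_singleton]; exact two_ne_one'.symm
  · simp only [Finset.mem_insert, Finset.mem_singleton, not_or]
    exact ⟨one_ne_zero'.symm, two_ne_zero'.symm⟩

lemma denn0 (r b : ℝ) (z : ℂ) : deriv (enn r b (0 : Fin (m + 3))) z = r * (1 - z ^ 2 / 2) := by
  rw [enn0]
  have h : HasDerivAt (fun z : ℂ => (r : ℂ) * (z - z ^ 3 / 6)) (r * (1 - (3 * z ^ 2) / 6)) z := by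
    have h1 : HasDerivAt (fun z : ℂ => z ^ 3) (3 * z ^ 2) z := by simpa using hasDerivAt_pow 3 z
    exact ((hasDerivAt_id z).sub (h1.div_const 6)).const_mul _
  rw [h.deriv]
  ring

lemma denn1 (r b : ℝ) (z : ℂ) :
    deriv (enn r b (1 : Fin (m + 3))) z = -(I * r) * (1 + z ^ 2 / 2) := by
  rw [enn1]
  have h : HasDerivAt (fun z : ℂ => -(I * (r : ℂ)) * (z + z ^ 3 / 6))
      (-(I * r) * (1 + (3 * z ^ 2) / 6)) z := by
    have h1 : HasDerivAt (fun z : ℂ => z ^ 3) (3 * z ^ 2) z := by simpa using hasDerivAt_pow 3 z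
    exact ((hasDerivAt_id z).add (h1.div_const 6)).const_mul _
  rw [h.deriv]
  ring

lemma denn2 (r b : ℝ) (z : ℂ) :
    deriv (enn r b (2 : Fin (m + 3))) z = r * b * (2 * z) := by
  rw [enn2]
  have h : HasDerivAt (fun z : ℂ => (r : ℂ) * b * z ^ 2) (r * b * (2 * z)) z := by
    have h1 : HasDerivAt (fun z : ℂ => z ^ 2) (2 * z) z := by simpa using hasDerivAt_pow 2 z
    exact h1.const_mul _
  rw [h.deriv]

lemma denn3 (r b : ℝ) {j : Fin (m + 3)} (h0 : j ≠ 0) (h1 : j ≠ 1) (h2 : j ≠ 2) (z : ℂ) :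
    deriv (enn r b j) z = 0 := by
  rw [enn3 r b h0 h1 h2]
  simp

lemma enn_W {r b : ℝ} (hb : b ^ 2 = 1 / 2) (z : ℂ) :
    ∑ j : Fin (m + 3), deriv (enn r b j) z ^ 2 = 0 := by
  rw [sum_three (fun j h0 h1 h2 => by rw [denn3 r b h0 h1 h2]; ring), denn0, denn1, denn2]
  have hb' : (b : ℂ) ^ 2 = 1 / 2 := by
    rw [← Complex.ofReal_pow, hb]
    norm_num
  have hI : I ^ 2 = -1 := Complex.I_sq
  linear_combination (4 * (r : ℂ) ^ 2 * z ^ 2) * hb' + ((r : ℂ) ^ 2 * (1 + z ^ 2 / 2) ^ 2) * hI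

lemma enn_zero (r b : ℝ) : reMap (enn r b) 0 = (0 : EuclideanSpace ℝ (Fin (m + 3))) := by
  ext j
  simp [enn]

lemma enn_fderiv_one (r b : ℝ) :
    fderiv ℝ (reMap (enn r b)) 0 1 = r • (EuclideanSpace.single (0 : Fin (m + 3)) (1 : ℝ)) := by
  rw [fderiv_reMap (enn_diff r b)]
  ext j
  rw [reMap_apply]
  by_cases h0 : j = 0
  · rw [h0, denn0]; simp
  by_cases h1 : j = 1
  · rw [h1, denn1]; simp
  by_cases h2 : j = 2
  · rw [h2, denn2]; simp [two_ne_zero']
  · rw [denn3 r b h0 h1 h2]; simp [h0]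

lemma enn_fderiv_I (r b : ℝ) :
    fderiv ℝ (reMap (enn r b)) 0 I = r • (EuclideanSpace.single (1 : Fin (m + 3)) (1 : ℝ)) := by
  rw [fderiv_reMap (enn_diff r b)]
  ext j
  rw [reMap_apply]
  by_cases h0 : j = 0
  · rw [h0, denn0]; simp
  by_cases h1 : j = 1
  · rw [h1, denn1]; simp
  by_cases h2 : j = 2
  · rw [h2, denn2]; simp [two_ne_one']
  · rw [denn3 r b h0 h1 h2]; simp [h1]

end Enneper

end Pool.Agent.T2H74.Disc
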