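import Mathlib
import Pool.Agent.T2H74.DiscC

set_option autoImplicit false

/-! # A strongly convex domain in which planar discs are not extremal -/

open Complex Metric Set Filter Topology InnerProductSpace

namespace Pool.Agent.T2H74.Disc

variable {m : ℕ}

/-- the space `ℝ^(m+3)` -/
abbrev EE (m : ℕ) := EuclideanSpace ℝ (Fin (m + 3))

/-- the defining function -/
noncomputable def rho (x : EE m) : ℝ := x 0 ^ 32 + x 1 ^ 32 + (1 / 20) * ‖x‖ ^ 2 - 1

/-- the domain `x₀^32 + x₁^32 + |x|²/20 < 1` -/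
def Dom (m : ℕ) : Set (EE m) := {x | rho x < 0}

lemma contDiff_coord (k : WithTop ℕ∞) (j : Fin (m + 3)) : ContDiff ℝ k (fun x : EE m => x j) :=
  (EuclideanSpace.proj j : EE m →L[ℝ] ℝ).contDiff

lemma contDiff_rho (k : WithTop ℕ∞) : ContDiff ℝ k (rho : EE m → ℝ) := by
  unfold rho
  exact ((((contDiff_coord k 0).pow 32).add ((contDiff_coord k 1).pow 32)).add
    (contDiff_const.mul (contDiff_norm_sq ℝ))).sub contDiff_const

lemma continuous_rho : Continuous (rho : EE m → ℝ) := (contDiff_rho 0).continuous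

lemma isOpen_Dom : IsOpen (Dom m) := isOpen_lt continuous_rho continuous_const

lemma zero_mem_Dom : (0 : EE m) ∈ Dom m := by
  show rho 0 < 0
  simp [rho]

lemma convexOn_coord_pow (j : Fin (m + 3)) : ConvexOn ℝ univ (fun x : EE m => x j ^ 32) := by
  have h : ConvexOn ℝ univ (fun t : ℝ => t ^ 32) := Even.convexOn_pow (by decide)
  exact h.comp_linearMap (EuclideanSpace.proj j : EE m →L[ℝ] ℝ).toLinearMap

lemma strongConvexOn_rho : StrongConvexOn univ (1 / 10) (rho : EE m → ℝ) := by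
  rw [strongConvexOn_iff_convex]
  have h1 := ((convexOn_coord_pow (m := m) 0).add (convexOn_coord_pow (m := m) 1)).add
    (convexOn_const (-1 : ℝ) convex_univ)
  refine h1.congr ?_
  intro x _
  simp only [Pi.add_apply, rho]
  ring

lemma convex_Dom : Convex ℝ (Dom m) := by
  have h : ConvexOn ℝ univ (rho : EE m → ℝ) := by
    apply strongConvexOn_rho.convexOn
    intro r
    simp only [Pi.zero_apply]
    positivity
  have := h.convex_lt 0
  simpa [Dom] using this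

lemma norm_lt_of_mem {x : EE m} (hx : x ∈ Dom m) : ‖x‖ ^ 2 < 20 := by
  have h : rho x < 0 := hx
  unfold rho at h
  have h0 : 0 ≤ x 0 ^ 32 := by positivity
  have h1 : 0 ≤ x 1 ^ 32 := by positivity
  linarith

lemma isBounded_Dom : Bornology.IsBounded (Dom m) := by
  rw [isBounded_iff_forall_norm_le]
  refine ⟨5, fun x hx => ?_⟩
  have := norm_lt_of_mem hx
  nlinarith [norm_nonneg x]

lemma coord_lt {x : EE m} (hx : x ∈ Dom m) : |x 0| < 1 ∧ |x 1| < 1 := by
  have h : rho x < 0 := hx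
  unfold rho at h
  have h0 : 0 ≤ x 0 ^ 32 := by positivity
  have h1 : 0 ≤ x 1 ^ 32 := by positivity
  have h2 : 0 ≤ ‖x‖ ^ 2 := by positivity
  have key : ∀ t : ℝ, t ^ 32 < 1 → |t| < 1 := by
    intro t ht
    by_contra hc
    push Not at hc
    have h3 : (1 : ℝ) ≤ |t| ^ 32 := one_le_pow₀ hc
    rw [Even.pow_abs (by decide)] at h3
    linarith
  exact ⟨key _ (by linarith), key _ (by linarith)⟩

lemma fderiv_rho_self (x : EE m) :
    fderiv ℝ rho x x = 32 * x 0 ^ 32 + 32 * x 1 ^ 32 + (1 / 10) * ‖x‖ ^ 2 := by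
  have hc : ∀ j : Fin (m + 3), HasFDerivAt (fun x : EE m => x j ^ 32)
      ((32 * x j ^ 31) • (EuclideanSpace.proj j : EE m →L[ℝ] ℝ)) x := by
    intro j
    have := ((EuclideanSpace.proj j : EE m →L[ℝ] ℝ).hasFDerivAt (x := x)).pow 32
    simpa using this
  have hn : HasFDerivAt (fun x : EE m => ‖x‖ ^ 2) (2 • innerSL ℝ x) x :=
    (hasStrictFDerivAt_norm_sq x).hasFDerivAt
  have h := (((hc 0).add (hc 1)).add (hn.const_mul (1 / 20))).sub_const 1
  have e : (rho : EE m → ℝ) = fun x => x 0 ^ 32 + x 1 ^ 32 + (1 / 20) * ‖x‖ ^ 2 - 1 := rfl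
  rw [e]
  have h' := h.fderiv
  simp only [Pi.add_apply] at h'
  erw [h']
  simp only [_root_.add_apply, _root_.smul_apply, smul_eq_mul,
    innerSL_apply_apply, real_inner_self_eq_norm_sq, nsmul_eq_mul]
  have e2 : ∀ j : Fin (m + 3), (EuclideanSpace.proj j : EE m →L[ℝ] ℝ) x = x j := fun j => rfl
  rw [e2, e2]
  push_cast
  ring

lemma fderiv_rho_ne {x : EE m} (hx : x ∈ frontier (Dom m)) : fderiv ℝ rho x ≠ 0 := by
  intro h
  have h1 : rho x = 0 := frontier_lt_subset_eq continuous_rho continuous_const hx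
  have h2 := fderiv_rho_self x
  rw [h] at h2
  have hne : x ≠ 0 := by
    rintro rfl
    simp [rho] at h1
  have h3 : 0 < ‖x‖ := norm_pos_iff.2 hne
  have h0 : 0 ≤ x 0 ^ 32 := by positivity
  have h1 : 0 ≤ x 1 ^ 32 := by positivity
  simp only [_root_.zero_apply] at h2
  nlinarith

/-! ## The reflection -/

/-- the reflection in the plane of the first two coordinates -/
noncomputable def refl (m : ℕ) : EE m ≃ₗᵢ[ℝ] EE m :=
  LinearIsometryEquiv.piLpCongrRight 2 fun i : Fin (m + 3) =>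
    if i = 0 ∨ i = 1 then LinearIsometryEquiv.refl ℝ ℝ else LinearIsometryEquiv.neg ℝ

lemma refl_apply (x : EE m) (j : Fin (m + 3)) :
    refl m x j = if j = 0 ∨ j = 1 then x j else - x j := by
  unfold refl
  rw [LinearIsometryEquiv.piLpCongrRight_apply]
  show (if j = 0 ∨ j = 1 then LinearIsometryEquiv.refl ℝ ℝ else LinearIsometryEquiv.neg ℝ) (x j) = _
  split_ifs <;> simp

lemma refl_mem {x : EE m} (hx : x ∈ Dom m) : refl m x ∈ Dom m := by
  have h : rho x < 0 := hx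
  show rho (refl m x) < 0
  unfold rho at h ⊢
  rw [(refl m).norm_map, refl_apply, refl_apply]
  simpa using h

lemma refl_single0 : refl m (EuclideanSpace.single 0 1) = EuclideanSpace.single 0 1 := by
  ext j
  rw [refl_apply]
  split_ifs with h
  · rfl
  · push Not at h
    simp [h.1]

lemma refl_single1 : refl m (EuclideanSpace.single 1 1) = EuclideanSpace.single 1 1 := by
  ext j
  rw [refl_apply]
  split_ifs with h
  · rfl
  · push Not at h
    simp [h.2]

lemma fderiv_refl {f : ℂ → EE m} {z : ℂ} (hf : DifferentiableAt ℝ f z) (v : ℂ) :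
    fderiv ℝ (fun w => refl m (f w)) z v = refl m (fderiv ℝ f z v) := by
  have h := ((refl m).toContinuousLinearEquiv.toContinuousLinearMap.hasFDerivAt (x := f z)).comp z
    hf.hasFDerivAt
  have h2 := h.fderiv
  have e : (⇑((refl m).toContinuousLinearEquiv.toContinuousLinearMap) ∘ f) =
    fun w => refl m (f w) := rfl
  rw [e] at h2
  rw [h2]
  rfl

theorem isCH_refl {f : ℂ → EE m} (hf : IsCH (Dom m) f) : IsCH (Dom m) (fun w => refl m (f w)) := by
  obtain ⟨hc, hmem, hconf, hharm⟩ := hf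
  have hd : ∀ x ∈ ball (0 : ℂ) 1, DifferentiableAt ℝ f x := fun x hx =>
    (contDiffAt_of_mem hc hx).differentiableAt (by norm_num)
  refine ⟨?_, fun z hz => refl_mem (hmem z hz), ?_, ?_⟩
  · exact (refl m).contDiff.comp_contDiffOn hc
  · intro z hz
    rw [fderiv_refl (hd z hz), fderiv_refl (hd z hz), (refl m).norm_map, (refl m).norm_map,
      (refl m).inner_map_map]
    exact hconf z hz
  · intro z hz
    have hd2 : DifferentiableAt ℝ (fderiv ℝ f) z :=
      ((contDiffAt_of_mem hc hz).fderiv_right (m := 1) (by norm_num)).differentiableAt (by norm_num)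
    have key : ∀ v : ℂ, fderiv ℝ (fun w => fderiv ℝ (fun w => refl m (f w)) w v) z v =
        refl m (fderiv ℝ (fun w => fderiv ℝ f w v) z v) := by
      intro v
      have e2 : (fun x => fderiv ℝ (fun w => refl m (f w)) x v) =ᶠ[𝓝 z]
          fun x => refl m (fderiv ℝ f x v) := by
        filter_upwards [isOpen_ball.mem_nhds hz] with x hx
        exact fderiv_refl (hd x hx) v
      rw [e2.fderiv_eq]
      exact fderiv_refl (f := fun x => fderiv ℝ f x v)
        (hd2.clm_apply (differentiableAt_const v)) v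
    rw [key 1, key I, ← map_add, hharm z hz, map_zero]

/-! ## The Enneper disc lies in the domain -/

lemma coord_bound {a b : ℝ} (h : a ^ 2 + b ^ 2 ≤ 1) :
    ((28 / 25) * (a - (a ^ 3 - 3 * a * b ^ 2) / 6)) ^ 2 ≤ 588 / 625 := by
  have hb : 0 ≤ b ^ 2 := sq_nonneg b
  have ha : 0 ≤ a ^ 2 := sq_nonneg a
  have e : ((28 / 25) * (a - (a ^ 3 - 3 * a * b ^ 2) / 6)) ^ 2 =
      (784 / 625) * (a ^ 2 * (1 - a ^ 2 / 6 + b ^ 2 / 2) ^ 2) := by ring
  rw [e]
  obtain ⟨t, ht⟩ : ∃ t, t = a ^ 2 := ⟨_, rfl⟩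
  obtain ⟨s, hs⟩ : ∃ s, s = b ^ 2 := ⟨_, rfl⟩
  rw [← ht, ← hs] at h ⊢
  rw [← ht] at ha
  rw [← hs] at hb
  have h1 : 1 - t / 6 + s / 2 ≤ 3 / 2 - 2 * t / 3 := by linarith
  have h2 : 0 ≤ 1 - t / 6 + s / 2 := by linarith
  have h3 : (1 - t / 6 + s / 2) ^ 2 ≤ (3 / 2 - 2 * t / 3) ^ 2 := by
    apply pow_le_pow_left₀ h2 h1
  have h4 : t * (1 - t / 6 + s / 2) ^ 2 ≤ t * (3 / 2 - 2 * t / 3) ^ 2 :=
    mul_le_mul_of_nonneg_left h3 ha
  have h5 : t * (3 / 2 - 2 * t / 3) ^ 2 ≤ 3 / 4 := by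
    have : 0 ≤ (t - 3 / 4) ^ 2 * (3 - t) := mul_nonneg (sq_nonneg _) (by linarith)
    nlinarith
  linarith

/-- the constant `√2/2` -/
noncomputable def bb : ℝ := Real.sqrt 2 / 2

lemma bb_sq : bb ^ 2 = 1 / 2 := by
  unfold bb
  rw [div_pow, Real.sq_sqrt (by norm_num)]
  norm_num

/-- the Enneper disc -/
noncomputable def ennDisc (m : ℕ) : ℂ → EE m := reMap (enn (28 / 25) bb)

lemma enn_mem {z : ℂ} (hz : z ∈ ball (0 : ℂ) 1) : ennDisc m z ∈ Dom m := by
  rw [mem_ball_zero_iff] at hz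
  obtain ⟨a, ha⟩ : ∃ a, a = z.re := ⟨_, rfl⟩
  obtain ⟨b, hb⟩ : ∃ b, b = z.im := ⟨_, rfl⟩
  have hzab : z = ⟨a, b⟩ := by rw [ha, hb]
  have hab : a ^ 2 + b ^ 2 ≤ 1 := by
    have h1 : ‖z‖ ^ 2 ≤ 1 := by nlinarith [norm_nonneg z]
    rw [← Complex.normSq_eq_norm_sq, Complex.normSq_apply, ← ha, ← hb] at h1
    linarith
  have hr : (((28 / 25 : ℝ)) : ℂ) = ((28 / 25 : ℝ) : ℂ) := rfl
  have c0 : ennDisc m z 0 = (28 / 25) * (a - (a ^ 3 - 3 * a * b ^ 2) / 6) := by
    show (enn (28 / 25) bb (0 : Fin (m + 3)) z).re = _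
    rw [enn0]
    simp only
    rw [hzab, Complex.re_ofReal_mul]
    congr 1
    have h6 : (6 : ℂ) = ((6 : ℝ) : ℂ) := by norm_num
    rw [h6, Complex.sub_re, Complex.div_ofReal_re]
    congr 2
    simp [pow_succ, Complex.mul_re, Complex.mul_im]
    ring
  have c1 : ennDisc m z 1 = (28 / 25) * (b - (b ^ 3 - 3 * b * a ^ 2) / 6) := by
    show (enn (28 / 25) bb (1 : Fin (m + 3)) z).re = _
    rw [enn1]
    simp only
    have e : -(I * (((28 / 25 : ℝ)) : ℂ)) * (z + z ^ 3 / 6) =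
        ((28 / 25 : ℝ) : ℂ) * (-(I * (z + z ^ 3 / 6))) := by ring
    rw [e, hzab, Complex.re_ofReal_mul]
    congr 1
    have h6 : (6 : ℂ) = ((6 : ℝ) : ℂ) := by norm_num
    rw [h6, Complex.neg_re, Complex.I_mul_re, neg_neg, Complex.add_im, Complex.div_ofReal_im]
    simp [pow_succ, Complex.mul_re, Complex.mul_im]
    ring
  have c2 : ennDisc m z 2 = (28 / 25) * bb * (a ^ 2 - b ^ 2) := by
    show (enn (28 / 25) bb (2 : Fin (m + 3)) z).re = _
    rw [enn2]
    simp only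
    rw [← Complex.ofReal_mul, hzab, Complex.re_ofReal_mul]
    congr 1
    simp [pow_succ, Complex.mul_re]
  have c3 : ∀ j : Fin (m + 3), j ≠ 0 → j ≠ 1 → j ≠ 2 → ennDisc m z j = 0 := by
    intro j h0 h1 h2
    show (enn (28 / 25) bb j z).re = _
    rw [enn3 _ _ h0 h1 h2]
    simp
  have hn : ‖ennDisc m z‖ ^ 2 = ennDisc m z 0 ^ 2 + ennDisc m z 1 ^ 2 + ennDisc m z 2 ^ 2 := by
    rw [EuclideanSpace.real_norm_sq_eq]
    exact sum_three (fun j h0 h1 h2 => by rw [c3 j h0 h1 h2]; norm_num)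
  show rho (ennDisc m z) < 0
  unfold rho
  rw [hn]
  have b0 : ennDisc m z 0 ^ 2 ≤ 588 / 625 := by rw [c0]; exact coord_bound hab
  have b1 : ennDisc m z 1 ^ 2 ≤ 588 / 625 := by
    rw [c1]; exact coord_bound (by linarith)
  have b2 : ennDisc m z 2 ^ 2 ≤ 1 := by
    rw [c2]
    have e : ((28 / 25) * bb * (a ^ 2 - b ^ 2)) ^ 2 = (784 / 625) * bb ^ 2 * (a ^ 2 - b ^ 2) ^ 2 := by
      ring
    rw [e, bb_sq]
    have : (a ^ 2 - b ^ 2) ^ 2 ≤ 1 := by nlinarith [sq_nonneg a, sq_nonneg b]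
    linarith
  have p : ∀ t : ℝ, t ^ 2 ≤ 588 / 625 → t ^ 32 ≤ 2 / 5 := by
    intro t ht
    have h1 : (t ^ 2) ^ 16 ≤ (588 / 625 : ℝ) ^ 16 := pow_le_pow_left₀ (sq_nonneg t) ht 16
    have h2 : (588 / 625 : ℝ) ^ 16 ≤ 2 / 5 := by norm_num
    rw [← pow_mul] at h1
    linarith
  have q0 := p _ b0
  have q1 := p _ b1
  linarith

theorem enn_isCH : IsCH (Dom m) (ennDisc m) :=
  isCH_reMap (enn_diff _ _) (enn_W bb_sq) (fun _ hz => enn_mem hz)

/-! ## The main statement -/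

/-- `f` is an extremal disc for the domain `Ω`, the point `p` and the frame `(u, v)` -/
def IsExtremal {n : ℕ} (Ω : Set (EuclideanSpace ℝ (Fin n))) (p u v : EuclideanSpace ℝ (Fin n))
    (f : ℂ → EuclideanSpace ℝ (Fin n)) : Prop :=
  ∃ r : ℝ, 0 < r ∧ IsCH Ω f ∧ f 0 = p ∧ fderiv ℝ f 0 (1 : ℂ) = r • u ∧
    fderiv ℝ f 0 Complex.I = r • v ∧
    ∀ g : ℂ → EuclideanSpace ℝ (Fin n), ∀ s : ℝ, 0 < s → IsCH Ω g → g 0 = p →
      fderiv ℝ g 0 (1 : ℂ) = s • u → fderiv ℝ g 0 Complex.I = s • v → s ≤ r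

/-- no extremal disc is planar -/
theorem extremal_not_planar {f : ℂ → EE m}
    (hf : IsExtremal (Dom m) 0 (EuclideanSpace.single 0 1) (EuclideanSpace.single 1 1) f) :
    ¬ ∀ z ∈ ball (0 : ℂ) 1, ∀ j, j ≠ 0 → j ≠ 1 → f z j = 0 := by
  obtain ⟨r, hr, hCH, h0, h1, h2, hmax⟩ := hf
  intro hpl
  have hle := hmax (ennDisc m) (28 / 25) (by norm_num) enn_isCH (enn_zero _ _)
    (enn_fderiv_one _ _) (enn_fderiv_I _ _)
  have := planar_bound hCH (fun x hx => coord_lt hx) hpl h0 hr h1 h2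
  nlinarith

theorem extremal_refl {f : ℂ → EE m}
    (hf : IsExtremal (Dom m) 0 (EuclideanSpace.single 0 1) (EuclideanSpace.single 1 1) f) :
    IsExtremal (Dom m) 0 (EuclideanSpace.single 0 1) (EuclideanSpace.single 1 1)
      (fun w => refl m (f w)) := by
  obtain ⟨r, hr, hCH, h0, h1, h2, hmax⟩ := hf
  have hd : DifferentiableAt ℝ f 0 :=
    (contDiffAt_of_mem hCH.1 (mem_ball_self one_pos)).differentiableAt (by norm_num)
  refine ⟨r, hr, isCH_refl hCH, by simp only [h0, map_zero], ?_, ?_, hmax⟩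
  · rw [fderiv_refl hd, h1, map_smul, refl_single0]
  · rw [fderiv_refl hd, h2, map_smul, refl_single1]

theorem not_unique {f : ℂ → EE m}
    (hf : IsExtremal (Dom m) 0 (EuclideanSpace.single 0 1) (EuclideanSpace.single 1 1) f) :
    ¬ ∀ h : ℂ → EE m,
      IsExtremal (Dom m) 0 (EuclideanSpace.single 0 1) (EuclideanSpace.single 1 1) h →
      EqOn h f (ball 0 1) := by
  intro hu
  apply extremal_not_planar hf
  intro z hz j hj0 hj1
  have h := hu _ (extremal_refl hf) hz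
  have h2 := congrArg (fun x : EE m => x j) h
  simp only [refl_apply] at h2
  rw [if_neg (by push Not; exact ⟨hj0, hj1⟩)] at h2
  linarith

end Pool.Agent.T2H74.Disc
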